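import Pool.Agent.Q2.CS2.Stm

namespace Q278.CS2

open Q2.CS2

lemma fsum_mul {α : Type} (f g : α → ℝ) (s : Finset α) (h : Function.support f ⊆ (s : Set α)) :
    ∑ᶠ u, f u * g u = ∑ u ∈ s, f u * g u := by
  apply finsum_eq_sum_of_support_subset
  intro u hu
  apply h
  rw [Function.mem_support] at hu ⊢
  exact left_ne_zero_of_mul hu

theorem j5 (h1 : S_1) (_h2 : S_2) (h3 : S_3) (h4 : S_4) : S_5 := by
  classical
  intro X D _ π hπ x y z t
  obtain ⟨-, hn, hpt, -⟩ := h1 X D π hπ
  obtain ⟨-, k2, -, k4, k5, k6, -⟩ := h3 X D π hπ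
  obtain ⟨-, c2, -⟩ := h4 X D π hπ
  have comp : ∀ h₁ h₂ x y, ∑ᶠ v, K π x h₁ v * K π v h₂ y = ∑ᶠ h, c π h₁ h₂ h * K π x h y := by
    intro h₁ h₂ x y
    rw [k5, k6]
  set b := pt π t with hb
  have hob : π default b = t := hpt t
  have hK : K π default t b = (n π t)⁻¹ := by
    unfold K
    rw [Set.indicator_of_mem]
    exact hob
  have key : ∀ h₁ h₂, ∑ᶠ s, c π h₁ h₂ s * K π default s b = c π h₁ h₂ t * (n π t)⁻¹ := by
    intro h₁ h₂
    rw [finsum_eq_single _ t, hK]
    intro s hs
    have : K π default s b = 0 := by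
      by_contra hne
      exact hs (((k4 _ _ _).1 hne).symm.trans hob)
    rw [this, mul_zero]
  -- finite sets
  let A : Finset D := (c2 x y).toFinset
  let A' : Finset D := (c2 y z).toFinset
  let C : Finset X := (k2 default x).toFinset
  let B : Finset X := (A.biUnion fun u => (k2 default u).toFinset) ∪ (C.biUnion fun w => (k2 w y).toFinset)
  have hA : Function.support (c π x y) ⊆ (A : Set D) := by simp [A]
  have hA' : Function.support (c π y z) ⊆ (A' : Set D) := by simp [A']
  have hC : Function.support (K π default x) ⊆ (C : Set X) := by simp [C]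
  have hB1 : ∀ u ∈ A, Function.support (K π default u) ⊆ (B : Set X) := by
    intro u hu v hv
    simp only [B, Finset.coe_union, Finset.coe_biUnion]
    left
    simp only [Set.mem_iUnion]
    exact ⟨u, hu, by simpa using hv⟩
  have hB2 : ∀ w ∈ C, Function.support (K π w y) ⊆ (B : Set X) := by
    intro w hw v hv
    simp only [B, Finset.coe_union, Finset.coe_biUnion]
    right
    simp only [Set.mem_iUnion]
    exact ⟨w, hw, by simpa using hv⟩
  have hL : (∑ᶠ u, c π x y u * c π u z t) * (n π t)⁻¹ =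
      ∑ v ∈ B, ∑ w ∈ C, K π default x w * K π w y v * K π v z b := by
    rw [fsum_mul _ _ A hA, Finset.sum_mul]
    have e1 : ∀ u ∈ A, c π x y u * c π u z t * (n π t)⁻¹ =
        ∑ v ∈ B, c π x y u * K π default u v * K π v z b := by
      intro u hu
      rw [mul_assoc, ← key, ← comp, fsum_mul _ _ B (hB1 u hu), Finset.mul_sum]
      exact Finset.sum_congr rfl fun v _ => by ring
    rw [Finset.sum_congr rfl e1, Finset.sum_comm]
    refine Finset.sum_congr rfl fun v _ => ?_
    rw [← Finset.sum_mul, ← Finset.sum_mul, ← fsum_mul _ _ A hA, ← comp, fsum_mul _ _ C hC]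
  have hR : (∑ᶠ u, c π y z u * c π x u t) * (n π t)⁻¹ =
      ∑ v ∈ B, ∑ w ∈ C, K π default x w * K π w y v * K π v z b := by
    rw [fsum_mul _ _ A' hA', Finset.sum_mul]
    have e1 : ∀ u ∈ A', c π y z u * c π x u t * (n π t)⁻¹ =
        ∑ w ∈ C, K π default x w * (c π y z u * K π w u b) := by
      intro u hu
      rw [mul_assoc, ← key, ← comp, fsum_mul _ _ C hC, Finset.mul_sum]
      exact Finset.sum_congr rfl fun v _ => by ring
    rw [Finset.sum_congr rfl e1, Finset.sum_comm, Finset.sum_comm (s := B)]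
    refine Finset.sum_congr rfl fun w hw => ?_
    rw [← Finset.mul_sum, ← fsum_mul _ _ A' hA', ← comp, fsum_mul _ _ B (hB2 w hw), Finset.mul_sum]
    exact Finset.sum_congr rfl fun v _ => by ring
  exact mul_right_cancel₀ (inv_ne_zero (hn t).ne') (hL.trans hR.symm)

end Q278.CS2
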